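import Pool.Agent.U644.DH.Core

/-!
Diamonds of numbers with the Künneth formula.
-/

namespace Pool.Agent.U644.DH

open Finset Real

universe u

/-- A class of objects with a dimension and numbers `c X p q` which satisfy the Künneth formula. -/
structure KSys where
  /-- the objects -/
  V : Type u
  /-- the dimension -/
  dim : V → ℕ
  /-- the product -/
  prod : V → V → V
  /-- the numbers -/
  c : V → ℕ → ℕ → ℕ
  dim_prod : ∀ X Y, dim (prod X Y) = dim X + dim Y
  kunneth : ∀ X Y p q, c (prod X Y) p q =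
    ∑ a ∈ antidiagonal p, ∑ b ∈ antidiagonal q, c X a.1 b.1 * c Y a.2 b.2
  bound : ∀ X p q, c X p q ≠ 0 → p ≤ 2 * dim X ∧ q ≤ 2 * dim X
  pos : ∀ X, 0 < c X 0 0

variable (S : KSys.{u})

/-- The exponential sum. -/
noncomputable def KSys.F (X : S.V) (u v : ℝ) : ℝ :=
  ∑ p ∈ range (2 * S.dim X + 1), ∑ q ∈ range (2 * S.dim X + 1),
    (S.c X p q : ℝ) * exp (u * p + v * q)

variable {S}

lemma KSys.c_eq_zero_left {X : S.V} {p q : ℕ} (h : 2 * S.dim X < p) : S.c X p q = 0 := by
  by_contra h0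
  have := (S.bound X p q h0).1
  omega

lemma KSys.c_eq_zero_right {X : S.V} {p q : ℕ} (h : 2 * S.dim X < q) : S.c X p q = 0 := by
  by_contra h0
  have := (S.bound X p q h0).2
  omega

lemma KSys.F_prod (X Y : S.V) (u v : ℝ) :
    S.F (S.prod X Y) u v = S.F X u v * S.F Y u v := by
  unfold KSys.F
  set n := 2 * S.dim X with hn
  set m := 2 * S.dim Y with hm
  have hnm : 2 * S.dim (S.prod X Y) = n + m := by rw [S.dim_prod]; omega
  rw [hnm]
  -- the summand
  set Φ : ℕ → ℕ → ℕ → ℕ → ℝ := fun a a' b b' =>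
    ((S.c X a b : ℝ) * exp (u * a + v * b)) * ((S.c Y a' b' : ℝ) * exp (u * a' + v * b')) with hΦ
  have h1 : ∀ p q : ℕ, ((S.c (S.prod X Y) p q : ℕ) : ℝ) * exp (u * p + v * q) =
      ∑ x ∈ antidiagonal p, ∑ y ∈ antidiagonal q, Φ x.1 x.2 y.1 y.2 := by
    intro p q
    rw [S.kunneth, Nat.cast_sum, Finset.sum_mul]
    refine Finset.sum_congr rfl fun x hx => ?_
    rw [Nat.cast_sum, Finset.sum_mul]
    refine Finset.sum_congr rfl fun y hy => ?_
    have hx' := mem_antidiagonal.1 hx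
    have hy' := mem_antidiagonal.1 hy
    rw [hΦ, ← hx', ← hy']
    push_cast
    have : exp (u * (x.1 + x.2) + v * (y.1 + y.2)) =
        exp (u * x.1 + v * y.1) * exp (u * x.2 + v * y.2) := by
      rw [← Real.exp_add]
      congr 1
      ring
    rw [this]
    ring
  have h2 : ∀ p : ℕ, ∑ q ∈ range (n + m + 1),
      ((S.c (S.prod X Y) p q : ℕ) : ℝ) * exp (u * p + v * q) =
      ∑ x ∈ antidiagonal p, ∑ b ∈ range (n + 1), ∑ b' ∈ range (m + 1), Φ x.1 x.2 b b' := by
    intro p
    rw [Finset.sum_congr rfl fun q _ => h1 p q, Finset.sum_comm]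
    refine Finset.sum_congr rfl fun x _ => ?_
    refine sum_antidiag n m (fun b b' => Φ x.1 x.2 b b') ?_ ?_ _ le_rfl
    · intro b b' hb
      simp only [hΦ, KSys.c_eq_zero_right (show 2 * S.dim X < b from hb), Nat.cast_zero, zero_mul]
    · intro b b' hb
      simp only [hΦ, KSys.c_eq_zero_right (show 2 * S.dim Y < b' from hb), Nat.cast_zero, zero_mul,
        mul_zero]
  rw [Finset.sum_congr rfl fun p _ => h2 p]
  rw [sum_antidiag n m (fun a a' => ∑ b ∈ range (n + 1), ∑ b' ∈ range (m + 1), Φ a a' b b')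
    ?_ ?_ _ le_rfl]
  · rw [Finset.sum_mul]
    refine Finset.sum_congr rfl fun a _ => ?_
    rw [Finset.mul_sum]
    refine Finset.sum_congr rfl fun a' _ => ?_
    rw [Finset.sum_mul]
    refine Finset.sum_congr rfl fun b _ => ?_
    rw [Finset.mul_sum]
  · intro a a' ha
    refine Finset.sum_eq_zero fun b _ => Finset.sum_eq_zero fun b' _ => ?_
    simp only [hΦ, KSys.c_eq_zero_left (show 2 * S.dim X < a from ha), Nat.cast_zero, zero_mul]
  · intro a a' ha
    refine Finset.sum_eq_zero fun b _ => Finset.sum_eq_zero fun b' _ => ?_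
    simp only [hΦ, KSys.c_eq_zero_left (show 2 * S.dim Y < a' from ha), Nat.cast_zero, zero_mul,
      mul_zero]

lemma KSys.F_pos (X : S.V) (u v : ℝ) : 0 < S.F X u v := by
  unfold KSys.F
  refine Finset.sum_pos' (fun p _ => Finset.sum_nonneg fun q _ => by positivity)
    ⟨0, by simp, ?_⟩
  refine Finset.sum_pos' (fun q _ => by positivity) ⟨0, by simp, ?_⟩
  have : (0 : ℝ) < (S.c X 0 0 : ℝ) := by exact_mod_cast S.pos X
  positivity

/-- Powers: `pw S X k` is the product of `k + 1` copies of `X`. -/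
def KSys.pw (T : KSys.{u}) (X : T.V) : ℕ → T.V
  | 0 => X
  | k + 1 => T.prod (KSys.pw T X k) X

lemma KSys.dim_pw (X : S.V) (k : ℕ) : S.dim (S.pw X k) = (k + 1) * S.dim X := by
  induction k with
  | zero => simp [KSys.pw]
  | succ k ih =>
    show S.dim (S.prod (S.pw X k) X) = _
    rw [S.dim_prod, ih]
    ring

lemma KSys.F_pw (X : S.V) (k : ℕ) (u v : ℝ) : S.F (S.pw X k) u v = S.F X u v ^ (k + 1) := by
  induction k with
  | zero => simp [KSys.pw]
  | succ k ih =>
    show S.F (S.prod (S.pw X k) X) u v = _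
    rw [KSys.F_prod, ih, pow_succ (S.F X u v) (k + 1)]

lemma KSys.F_shift_le (X : S.V) (u v a b : ℝ) (ha : 0 ≤ a) (hb : 0 ≤ b) :
    S.F X (u + a) (v + b) ≤ exp (2 * S.dim X * (a + b)) * S.F X u v := by
  unfold KSys.F
  rw [Finset.mul_sum]
  refine Finset.sum_le_sum fun p hp => ?_
  rw [Finset.mul_sum]
  refine Finset.sum_le_sum fun q hq => ?_
  have hp' : (p : ℝ) ≤ 2 * S.dim X := by
    have := Finset.mem_range.1 hp
    exact_mod_cast (by omega : p ≤ 2 * S.dim X)
  have hq' : (q : ℝ) ≤ 2 * S.dim X := by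
    have := Finset.mem_range.1 hq
    exact_mod_cast (by omega : q ≤ 2 * S.dim X)
  have h1 : exp ((u + a) * p + (v + b) * q) ≤
      exp (2 * S.dim X * (a + b)) * exp (u * p + v * q) := by
    rw [← Real.exp_add]
    apply Real.exp_le_exp.2
    nlinarith [mul_le_mul_of_nonneg_left hp' ha, mul_le_mul_of_nonneg_left hq' hb]
  calc (S.c X p q : ℝ) * exp ((u + a) * p + (v + b) * q)
      ≤ (S.c X p q : ℝ) * (exp (2 * S.dim X * (a + b)) * exp (u * p + v * q)) :=
        mul_le_mul_of_nonneg_left h1 (by positivity)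
    _ = _ := by ring

lemma KSys.F_unshift_le (X : S.V) (u v a b : ℝ) (ha : 0 ≤ a) (hb : 0 ≤ b) :
    S.F X (u - a) (v - b) ≤ S.F X u v := by
  unfold KSys.F
  refine Finset.sum_le_sum fun p hp => ?_
  refine Finset.sum_le_sum fun q hq => ?_
  refine mul_le_mul_of_nonneg_left (Real.exp_le_exp.2 ?_) (by positivity)
  have h1 : 0 ≤ a * p := by positivity
  have h2 : 0 ≤ b * q := by positivity
  nlinarith

/-- The pointwise estimate behind the Chernoff bound. -/
lemma chernoff_point (w x y A1 A2 B1 B2 θ : ℝ) (hw : 0 ≤ w) (hθ : 0 ≤ θ) (W : ℝ) (hW : 0 ≤ W)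
    (h : A2 ≤ x → x ≤ A1 → B2 ≤ y → y ≤ B1 → w ≤ W) :
    w ≤ W + (w * exp (θ * (x - A1)) + w * exp (-θ * (x - A2)) + w * exp (θ * (y - B1)) +
      w * exp (-θ * (y - B2))) := by
  have e1 : 0 ≤ w * exp (θ * (x - A1)) := by positivity
  have e2 : 0 ≤ w * exp (-θ * (x - A2)) := by positivity
  have e3 : 0 ≤ w * exp (θ * (y - B1)) := by positivity
  have e4 : 0 ≤ w * exp (-θ * (y - B2)) := by positivity
  have key : ∀ s : ℝ, 0 ≤ s → w ≤ w * exp s := by
    intro s hs
    have : (1 : ℝ) ≤ exp s := Real.one_le_exp hs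
    nlinarith
  by_cases h1 : A2 ≤ x
  · by_cases h2 : x ≤ A1
    · by_cases h3 : B2 ≤ y
      · by_cases h4 : y ≤ B1
        · have := h h1 h2 h3 h4
          linarith
        · have := key (θ * (y - B1)) (by push Not at h4; nlinarith)
          linarith
      · have := key (-θ * (y - B2)) (by push Not at h3; nlinarith)
        linarith
    · have := key (θ * (x - A1)) (by push Not at h2; nlinarith)
      linarith
  · have := key (-θ * (x - A2)) (by push Not at h1; nlinarith)
    linarith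

/-- Summing the pointwise estimate. -/
lemma KSys.chernoff (X Y : S.V) (hd : S.dim X = S.dim Y) (u v θ A1 A2 B1 B2 κ : ℝ) (hθ : 0 ≤ θ)
    (hκ : 0 ≤ κ)
    (h : ∀ p q : ℕ, A2 ≤ p → (p : ℝ) ≤ A1 → B2 ≤ q → (q : ℝ) ≤ B1 →
      (S.c X p q : ℝ) ≤ κ * S.c Y p q) :
    S.F X u v ≤ κ * S.F Y u v + (S.F X (u + θ) v * exp (-θ * A1) + S.F X (u - θ) v * exp (θ * A2) +
      S.F X u (v + θ) * exp (-θ * B1) + S.F X u (v - θ) * exp (θ * B2)) := by
  unfold KSys.F
  rw [← hd]
  simp only [Finset.mul_sum, Finset.sum_mul]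
  rw [← Finset.sum_add_distrib, ← Finset.sum_add_distrib, ← Finset.sum_add_distrib,
    ← Finset.sum_add_distrib]
  refine Finset.sum_le_sum fun p _ => ?_
  rw [← Finset.sum_add_distrib, ← Finset.sum_add_distrib, ← Finset.sum_add_distrib,
    ← Finset.sum_add_distrib]
  refine Finset.sum_le_sum fun q _ => ?_
  have hW : 0 ≤ κ * ((S.c Y p q : ℝ) * exp (u * p + v * q)) := by positivity
  have := chernoff_point ((S.c X p q : ℝ) * exp (u * p + v * q)) p q A1 A2 B1 B2 θ
    (by positivity) hθ (κ * ((S.c Y p q : ℝ) * exp (u * p + v * q))) hW (by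
      intro h1 h2 h3 h4
      have := h p q h1 h2 h3 h4
      have h5 : (0 : ℝ) ≤ exp (u * p + v * q) := by positivity
      calc (S.c X p q : ℝ) * exp (u * p + v * q) ≤ (κ * S.c Y p q) * exp (u * p + v * q) :=
            mul_le_mul_of_nonneg_right this h5
        _ = _ := by ring)
  refine this.trans (le_of_eq ?_)
  have E1 : (S.c X p q : ℝ) * exp (u * p + v * q) * exp (θ * (p - A1)) =
      (S.c X p q : ℝ) * exp ((u + θ) * p + v * q) * exp (-θ * A1) := by
    rw [mul_assoc, mul_assoc, ← Real.exp_add, ← Real.exp_add]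
    congr 2
    ring
  have E2 : (S.c X p q : ℝ) * exp (u * p + v * q) * exp (-θ * (p - A2)) =
      (S.c X p q : ℝ) * exp ((u - θ) * p + v * q) * exp (θ * A2) := by
    rw [mul_assoc, mul_assoc, ← Real.exp_add, ← Real.exp_add]
    congr 2
    ring
  have E3 : (S.c X p q : ℝ) * exp (u * p + v * q) * exp (θ * (q - B1)) =
      (S.c X p q : ℝ) * exp (u * p + (v + θ) * q) * exp (-θ * B1) := by
    rw [mul_assoc, mul_assoc, ← Real.exp_add, ← Real.exp_add]
    congr 2
    ring
  have E4 : (S.c X p q : ℝ) * exp (u * p + v * q) * exp (-θ * (q - B2)) =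
      (S.c X p q : ℝ) * exp (u * p + (v - θ) * q) * exp (θ * B2) := by
    rw [mul_assoc, mul_assoc, ← Real.exp_add, ← Real.exp_add]
    congr 2
    ring
  rw [E1, E2, E3, E4]

end Pool.Agent.U644.DH
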