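import Mathlib

/-!
Analysis for the amplification of comparisons between Hodge numbers: Chernoff bounds for
weighted sums, and the uniqueness of exponential sums.
-/

namespace Pool.Agent.U644.DH

open Finset Real Filter

/-- The Cauchy product of finitely supported families. -/
lemma sum_antidiag {R : Type*} [AddCommMonoid R] (n m : ℕ) (Φ : ℕ → ℕ → R)
    (h1 : ∀ a b, n < a → Φ a b = 0) (h2 : ∀ a b, m < b → Φ a b = 0) (L : ℕ) (hL : n + m ≤ L) :
    ∑ p ∈ range (L + 1), ∑ x ∈ antidiagonal p, Φ x.1 x.2 =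
      ∑ a ∈ range (n + 1), ∑ b ∈ range (m + 1), Φ a b := by
  classical
  rw [← Finset.sum_product' (range (n + 1)) (range (m + 1)) Φ]
  rw [← Finset.sum_fiberwise_of_maps_to (s := range (n + 1) ×ˢ range (m + 1))
    (t := range (L + 1)) (g := fun x => x.1 + x.2) (f := fun x => Φ x.1 x.2)]
  · refine Finset.sum_congr rfl fun p _ => ?_
    symm
    refine Finset.sum_subset ?_ ?_
    · intro x hx
      simp only [Finset.mem_filter] at hx
      exact mem_antidiagonal.2 hx.2
    · intro x hx hx2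
      by_cases hx1 : n < x.1
      · exact h1 _ _ hx1
      · by_cases hx3 : m < x.2
        · exact h2 _ _ hx3
        · exfalso
          apply hx2
          simp only [Finset.mem_filter, Finset.mem_product, Finset.mem_range]
          exact ⟨⟨by omega, by omega⟩, mem_antidiagonal.1 hx⟩
  · intro x hx
    simp only [Finset.mem_product, Finset.mem_range] at hx ⊢
    omega

/-- An exponential sum with `x` in an interval determines its coefficients. -/
lemma coeff_unique (M : ℕ) (a b : ℕ → ℝ) (u₀ r : ℝ) (hr : 0 < r)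
    (h : ∀ u, |u - u₀| < r → ∑ p ∈ range M, a p * exp (u * p) = ∑ p ∈ range M, b p * exp (u * p)) :
    ∀ p < M, a p = b p := by
  classical
  set f : Polynomial ℝ := ∑ p ∈ range M, Polynomial.C (a p - b p) * Polynomial.X ^ p with hf
  have hroot : ∀ u, |u - u₀| < r → f.IsRoot (exp u) := by
    intro u hu
    rw [Polynomial.IsRoot, hf, Polynomial.eval_finsetSum]
    have h1 := h u hu
    rw [← sub_eq_zero, ← Finset.sum_sub_distrib] at h1
    rw [← h1]
    refine Finset.sum_congr rfl fun p _ => ?_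
    rw [Polynomial.eval_mul, Polynomial.eval_C, Polynomial.eval_pow, Polynomial.eval_X,
      ← Real.exp_nat_mul, mul_comm (p : ℝ) u]
    ring
  have hinf : Set.Infinite {x | f.IsRoot x} := by
    have h1 : (Set.Ioo (u₀ - r) (u₀ + r)).Infinite := Set.Ioo_infinite (by linarith)
    have h2 : (exp '' Set.Ioo (u₀ - r) (u₀ + r)).Infinite :=
      h1.image (Real.exp_injective.injOn)
    refine h2.mono ?_
    rintro _ ⟨u, hu, rfl⟩
    apply hroot
    rw [abs_lt]
    constructor <;> linarith [hu.1, hu.2]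
  have hf0 : f = 0 := Polynomial.eq_zero_of_infinite_isRoot f hinf
  intro p hp
  have h1 : f.coeff p = a p - b p := by
    rw [hf, Polynomial.finsetSum_coeff]
    rw [Finset.sum_eq_single p]
    · rw [Polynomial.coeff_C_mul, Polynomial.coeff_X_pow, if_pos rfl, mul_one]
    · intro q _ hq
      rw [Polynomial.coeff_C_mul, Polynomial.coeff_X_pow, if_neg (Ne.symm hq), mul_zero]
    · intro hp2
      exact absurd (Finset.mem_range.2 hp) hp2
  rw [hf0, Polynomial.coeff_zero] at h1
  linarith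

/-- Comparing powers. -/
lemma root_lemma (P Q κ C : ℝ) (t : Fin 4 → ℝ) (hP : 0 < P) (hQ : 0 ≤ Q) (hκ : 0 ≤ κ)
    (ht0 : ∀ j, 0 ≤ t j) (ht : ∀ j, t j < P)
    (h : ∀ N : ℕ, P ^ (N + 1) ≤ C * (κ * Q) ^ (N + 1) + ∑ j, t j ^ (N + 1)) :
    P ≤ κ * Q := by
  by_contra hlt
  push Not at hlt
  have h1 : ∀ N : ℕ, (1 : ℝ) ≤ C * (κ * Q / P) ^ (N + 1) + ∑ j, (t j / P) ^ (N + 1) := by
    intro N
    have hPN : 0 < P ^ (N + 1) := by positivity
    have := h N
    have h2 : C * (κ * Q / P) ^ (N + 1) + ∑ j, (t j / P) ^ (N + 1) =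
        (C * (κ * Q) ^ (N + 1) + ∑ j, t j ^ (N + 1)) / P ^ (N + 1) := by
      rw [add_div, Finset.sum_div, div_pow, mul_div_assoc]
      congr 1
      refine Finset.sum_congr rfl fun j _ => ?_
      rw [div_pow]
    rw [h2, le_div_iff₀ hPN, one_mul]
    exact this
  have hlim : ∀ x : ℝ, 0 ≤ x → x < P → Tendsto (fun N : ℕ => (x / P) ^ (N + 1)) atTop (nhds 0) := by
    intro x hx0 hx
    have h3 : Tendsto (fun N : ℕ => (x / P) ^ N) atTop (nhds 0) :=
      tendsto_pow_atTop_nhds_zero_of_lt_one (by positivity) ((div_lt_one hP).2 hx)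
    exact h3.comp (tendsto_add_atTop_nat 1)
  have h4 : Tendsto (fun N : ℕ => C * (κ * Q / P) ^ (N + 1) + ∑ j, (t j / P) ^ (N + 1)) atTop
      (nhds (C * 0 + ∑ _j : Fin 4, (0 : ℝ))) := by
    refine Tendsto.add ((hlim _ (by positivity) hlt).const_mul C) ?_
    exact tendsto_finsetSum _ fun j _ => hlim _ (ht0 j) (ht j)
  have h5 := ge_of_tendsto' h4 h1
  simp at h5
  linarith

/-- The logarithm of `1 + exp`. -/
lemma log_one_add_exp_strict (i : ℕ) (u₀ : ℝ) (ε : ℝ) (hε : 0 < ε) :
    ∃ r > 0, ∀ u, |u - u₀| < r → ∀ θ, |θ| < r →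
      (1 + exp (u + θ)) ^ i ≤ (1 + exp u) ^ i *
        exp (θ * (i * (exp u₀ / (1 + exp u₀))) + |θ| * ε) := by
  have hpos : ∀ u : ℝ, 0 < 1 + exp u := fun u => by positivity
  have hd : HasStrictDerivAt (fun u : ℝ => (i : ℝ) * Real.log (1 + exp u))
      ((i : ℝ) * (exp u₀ / (1 + exp u₀))) u₀ := by
    have h1 : HasStrictDerivAt (fun u : ℝ => 1 + exp u) (exp u₀) u₀ :=
      (Real.hasStrictDerivAt_exp u₀).const_add 1
    have h2 := h1.log (hpos u₀).ne'
    exact h2.const_mul (i : ℝ)
  have hlo := hd.isLittleO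
  rw [Asymptotics.isLittleO_iff] at hlo
  have hev := hlo hε
  rw [Metric.eventually_nhds_iff] at hev
  obtain ⟨r, hr, hball⟩ := hev
  refine ⟨r / 2, by positivity, fun u hu θ hθ => ?_⟩
  have hmem : dist (u + θ, u) (u₀, u₀) < r := by
    rw [Prod.dist_eq, max_lt_iff, Real.dist_eq, Real.dist_eq]
    constructor
    · have : |u + θ - u₀| ≤ |u - u₀| + |θ| := by
        have := abs_add_le (u - u₀) θ
        rwa [show u - u₀ + θ = u + θ - u₀ by ring] at this
      linarith
    · show |u - u₀| < r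
      linarith
  have hb := hball hmem
  simp only [Real.norm_eq_abs, ContinuousLinearMap.toSpanSingleton_apply, smul_eq_mul,
    add_sub_cancel_left] at hb
  have h3 : (i : ℝ) * Real.log (1 + exp (u + θ)) ≤ (i : ℝ) * Real.log (1 + exp u) +
      (θ * ((i : ℝ) * (exp u₀ / (1 + exp u₀))) + |θ| * ε) := by
    have := (abs_le.1 hb).2
    linarith
  have h4 := Real.exp_le_exp.2 h3
  have h5 : ∀ w : ℝ, exp ((i : ℝ) * Real.log (1 + exp w)) = (1 + exp w) ^ i := by
    intro w
    rw [Real.exp_nat_mul, Real.exp_log (hpos _)]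
  rw [Real.exp_add ((i : ℝ) * Real.log (1 + exp u)), h5, h5] at h4
  exact h4

end Pool.Agent.U644.DH
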