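import Pool.Agent.U644.DH.Alg

/-!
The amplification argument.
-/

namespace Pool.Agent.U644.DH

open Finset Real Filter

universe u

variable {S : KSys.{u}}

lemma le_of_forall_exp (x y m : ℝ) (h : ∀ δ > 0, x ≤ exp (δ * m) * y) : x ≤ y := by
  have h1 : Tendsto (fun δ : ℝ => exp (δ * m) * y) (nhdsWithin 0 (Set.Ioi 0)) (nhds y) := by
    have h2 : Continuous fun δ : ℝ => exp (δ * m) * y := by fun_prop
    have h3 := h2.tendsto 0
    simp only [zero_mul, Real.exp_zero, one_mul] at h3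
    exact h3.mono_left nhdsWithin_le_nhds
  refine ge_of_tendsto h1 ?_
  filter_upwards [self_mem_nhdsWithin] with δ hδ
  exact h δ hδ

/-- The data of a test object `E` and an equivalence relation compatible with products. -/
structure Setup (S : KSys.{u}) (R : S.V → S.V → Prop) (E : S.V) (i j : ℕ) : Prop where
  symm : ∀ X Y, R X Y → R Y X
  refl : ∀ X, R X X
  dim_eq : ∀ X Y, R X Y → S.dim X = S.dim Y
  prod : ∀ X Y X' Y', R X Y → R X' Y' → R (S.prod X X') (S.prod Y Y')
  dim_E : S.dim E = 1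
  F_E : ∀ u v, S.F E u v = (1 + exp u) ^ i * (1 + exp v) ^ j

lemma Setup.pw {R : S.V → S.V → Prop} {E : S.V} {i j : ℕ} (H : Setup S R E i j) {X Y : S.V}
    (h : R X Y) (k : ℕ) : R (S.pw X k) (S.pw Y k) := by
  induction k with
  | zero => exact h
  | succ k ih => exact H.prod _ _ _ _ ih h

/-- One inequality between the exponential sums. -/
lemma Setup.F_le {R : S.V → S.V → Prop} {E : S.V} {i j : ℕ} (H : Setup S R E i j)
    (u₀ v₀ ε r : ℝ) (hε : 0 < ε) (hr : 0 < r)
    (hri : ∀ u, |u - u₀| < r → ∀ θ, |θ| < r →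
      (1 + exp (u + θ)) ^ i ≤ (1 + exp u) ^ i *
        exp (θ * (i * (exp u₀ / (1 + exp u₀))) + |θ| * (ε / 2)))
    (hrj : ∀ v, |v - v₀| < r → ∀ θ, |θ| < r →
      (1 + exp (v + θ)) ^ j ≤ (1 + exp v) ^ j *
        exp (θ * (j * (exp v₀ / (1 + exp v₀))) + |θ| * (ε / 2)))
    (hc : ∀ δ > 0, ∃ C : ℝ, ∀ X Y, R X Y → ∀ p q : ℕ,
      |(p : ℝ) - (i * (exp u₀ / (1 + exp u₀))) * S.dim X| ≤ ε * S.dim X →
      |(q : ℝ) - (j * (exp v₀ / (1 + exp v₀))) * S.dim X| ≤ ε * S.dim X →
      (S.c X p q : ℝ) ≤ C * exp (δ * S.dim X) * S.c Y p q)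
    {X Y : S.V} (h : R X Y) (u v : ℝ) (hu : |u - u₀| < r) (hv : |v - v₀| < r) :
    S.F X u v ≤ S.F Y u v := by
  set α : ℝ := i * (exp u₀ / (1 + exp u₀)) with hα
  set β : ℝ := j * (exp v₀ / (1 + exp v₀)) with hβ
  have hα0 : 0 ≤ α := by positivity
  have hβ0 : 0 ≤ β := by positivity
  have hdim : S.dim X = S.dim Y := H.dim_eq _ _ h
  set n : ℝ := (S.dim X : ℝ) with hn
  have hn0 : 0 ≤ n := by positivity
  set θ : ℝ := r / 2 with hθ
  have hθ0 : 0 < θ := by positivity
  have hθr : |θ| < r := by rw [abs_of_pos hθ0]; linarith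
  have hθr' : |-θ| < r := by rw [abs_neg]; exact hθr
  obtain ⟨K, hK⟩ := exists_nat_gt (((2 + α + β) * n) / (ε / 2))
  have hK1 : (2 + α + β) * n < ((K : ℝ) + 1) * (ε / 2) := by
    have h1 := (div_lt_iff₀ (by positivity)).1 hK
    nlinarith
  set X' := S.prod X (S.pw E K) with hX'
  set Y' := S.prod Y (S.pw E K) with hY'
  have hR' : R X' Y' := H.prod _ _ _ _ h (H.refl _)
  have hdX' : (S.dim X' : ℝ) = n + (K + 1) := by
    rw [hX', S.dim_prod, KSys.dim_pw, H.dim_E]
    push_cast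
    ring
  set m : ℝ := n + (K + 1) with hm
  have hFX : ∀ a b, S.F X' a b = S.F X a b * ((1 + exp a) ^ i * (1 + exp b) ^ j) ^ (K + 1) := by
    intro a b
    rw [hX', KSys.F_prod, KSys.F_pw, H.F_E]
  have hFY : ∀ a b, S.F Y' a b = S.F Y a b * ((1 + exp a) ^ i * (1 + exp b) ^ j) ^ (K + 1) := by
    intro a b
    rw [hY', KSys.F_prod, KSys.F_pw, H.F_E]
  -- the powers
  have hdpow : ∀ N : ℕ, (S.dim (S.pw X' N) : ℝ) = (N + 1) * m := by
    intro N
    rw [KSys.dim_pw, Nat.cast_mul, hdX']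
    push_cast
    ring
  have hFX0 : 0 < S.F X u v := KSys.F_pos X u v
  set G : ℝ := ((1 + exp u) ^ i * (1 + exp v) ^ j) ^ (K + 1) with hG
  have hG0 : 0 < G := by positivity
  have hP0 : 0 < S.F X' u v := KSys.F_pos X' u v
  -- the four tails
  set t : Fin 4 → ℝ := ![S.F X' (u + θ) v * exp (-θ * ((α + ε) * m)),
    S.F X' (u - θ) v * exp (θ * ((α - ε) * m)),
    S.F X' u (v + θ) * exp (-θ * ((β + ε) * m)),
    S.F X' u (v - θ) * exp (θ * ((β - ε) * m))] with ht
  have ht0 : ∀ k, 0 ≤ t k := by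
    intro k
    fin_cases k
    · exact mul_nonneg (KSys.F_pos _ _ _).le (Real.exp_pos _).le
    · exact mul_nonneg (KSys.F_pos _ _ _).le (Real.exp_pos _).le
    · exact mul_nonneg (KSys.F_pos _ _ _).le (Real.exp_pos _).le
    · exact mul_nonneg (KSys.F_pos _ _ _).le (Real.exp_pos _).le
  -- a general estimate
  have gen : ∀ (a b s e g x : ℝ), S.F X a b ≤ exp s * S.F X u v →
      (1 + exp a) ^ i * (1 + exp b) ^ j ≤ ((1 + exp u) ^ i * (1 + exp v) ^ j) * exp e →
      g = exp x → s + (K + 1) * e + x < 0 → S.F X' a b * g < S.F X' u v := by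
    intro a b s e g x h1 h2 h3 h4
    rw [hFX a b, hFX u v, h3]
    have h5 : ((1 + exp a) ^ i * (1 + exp b) ^ j) ^ (K + 1) ≤ G * exp ((K + 1) * e) := by
      calc ((1 + exp a) ^ i * (1 + exp b) ^ j) ^ (K + 1)
          ≤ (((1 + exp u) ^ i * (1 + exp v) ^ j) * exp e) ^ (K + 1) :=
            pow_le_pow_left₀ (by positivity) h2 _
        _ = G * exp ((K + 1) * e) := by
            rw [mul_pow, ← Real.exp_nat_mul]
            push_cast
            rfl
    have h6 : S.F X a b * ((1 + exp a) ^ i * (1 + exp b) ^ j) ^ (K + 1) ≤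
        (exp s * S.F X u v) * (G * exp ((K + 1) * e)) :=
      mul_le_mul h1 h5 (by positivity) (by positivity)
    have h7 : (exp s * S.F X u v) * (G * exp ((K + 1) * e)) * exp x =
        (S.F X u v * G) * exp (s + (K + 1) * e + x) := by
      rw [Real.exp_add, Real.exp_add]
      ring
    have h8 : exp (s + (K + 1) * e + x) < 1 := by
      rw [Real.exp_lt_one_iff]
      exact h4
    have h9 : 0 < S.F X u v * G := by positivity
    calc S.F X a b * ((1 + exp a) ^ i * (1 + exp b) ^ j) ^ (K + 1) * exp x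
        ≤ (exp s * S.F X u v) * (G * exp ((K + 1) * e)) * exp x :=
          mul_le_mul_of_nonneg_right h6 (Real.exp_pos _).le
      _ = (S.F X u v * G) * exp (s + (K + 1) * e + x) := h7
      _ < (S.F X u v * G) * 1 := mul_lt_mul_of_pos_left h8 h9
      _ = S.F X u v * G := mul_one _
  have hri1 := hri u hu θ hθr
  have hri2 := hri u hu (-θ) hθr'
  have hrj1 := hrj v hv θ hθr
  have hrj2 := hrj v hv (-θ) hθr'
  rw [abs_of_pos hθ0] at hri1 hrj1
  rw [abs_neg, abs_of_pos hθ0] at hri2 hrj2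
  have hαn : 0 ≤ α * n := by positivity
  have hβn : 0 ≤ β * n := by positivity
  have hεn : 0 ≤ ε * n := by positivity
  have ht1 : ∀ k, t k < S.F X' u v := by
    intro k
    fin_cases k
    · show S.F X' (u + θ) v * exp (-θ * ((α + ε) * m)) < S.F X' u v
      refine gen (u + θ) v (2 * n * θ) (θ * α + θ * (ε / 2)) _ _ ?_ ?_ rfl ?_
      · have := KSys.F_shift_le X u v θ 0 hθ0.le le_rfl
        rw [add_zero, add_zero] at this
        exact this
      · calc (1 + exp (u + θ)) ^ i * (1 + exp v) ^ j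
            ≤ ((1 + exp u) ^ i * exp (θ * α + θ * (ε / 2))) * (1 + exp v) ^ j :=
              mul_le_mul_of_nonneg_right hri1 (by positivity)
          _ = _ := by ring
      · rw [hm]
        have : 2 * n * θ + (K + 1) * (θ * α + θ * (ε / 2)) + -θ * ((α + ε) * (n + (K + 1))) =
          θ * (2 * n - (α + ε) * n - (K + 1) * (ε / 2)) := by ring
        rw [this]
        exact mul_neg_of_pos_of_neg hθ0 (by nlinarith)
    · show S.F X' (u - θ) v * exp (θ * ((α - ε) * m)) < S.F X' u v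
      refine gen (u - θ) v 0 (-θ * α + θ * (ε / 2)) _ _ ?_ ?_ rfl ?_
      · have := KSys.F_unshift_le X u v θ 0 hθ0.le le_rfl
        rw [sub_zero] at this
        rw [Real.exp_zero, one_mul]
        exact this
      · calc (1 + exp (u - θ)) ^ i * (1 + exp v) ^ j
            ≤ ((1 + exp u) ^ i * exp (-θ * α + θ * (ε / 2))) * (1 + exp v) ^ j :=
              mul_le_mul_of_nonneg_right (by rw [sub_eq_add_neg]; exact hri2) (by positivity)
          _ = _ := by ring
      · rw [hm]
        have : 0 + (K + 1) * (-θ * α + θ * (ε / 2)) + θ * ((α - ε) * (n + (K + 1))) =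
          θ * ((α - ε) * n - (K + 1) * (ε / 2)) := by ring
        rw [this]
        exact mul_neg_of_pos_of_neg hθ0 (by nlinarith)
    · show S.F X' u (v + θ) * exp (-θ * ((β + ε) * m)) < S.F X' u v
      refine gen u (v + θ) (2 * n * θ) (θ * β + θ * (ε / 2)) _ _ ?_ ?_ rfl ?_
      · have := KSys.F_shift_le X u v 0 θ le_rfl hθ0.le
        rw [add_zero, zero_add] at this
        exact this
      · calc (1 + exp u) ^ i * (1 + exp (v + θ)) ^ j
            ≤ (1 + exp u) ^ i * ((1 + exp v) ^ j * exp (θ * β + θ * (ε / 2))) :=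
              mul_le_mul_of_nonneg_left hrj1 (by positivity)
          _ = _ := by ring
      · rw [hm]
        have : 2 * n * θ + (K + 1) * (θ * β + θ * (ε / 2)) + -θ * ((β + ε) * (n + (K + 1))) =
          θ * (2 * n - (β + ε) * n - (K + 1) * (ε / 2)) := by ring
        rw [this]
        exact mul_neg_of_pos_of_neg hθ0 (by nlinarith)
    · show S.F X' u (v - θ) * exp (θ * ((β - ε) * m)) < S.F X' u v
      refine gen u (v - θ) 0 (-θ * β + θ * (ε / 2)) _ _ ?_ ?_ rfl ?_
      · have := KSys.F_unshift_le X u v 0 θ le_rfl hθ0.le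
        rw [sub_zero] at this
        rw [Real.exp_zero, one_mul]
        exact this
      · calc (1 + exp u) ^ i * (1 + exp (v - θ)) ^ j
            ≤ (1 + exp u) ^ i * ((1 + exp v) ^ j * exp (-θ * β + θ * (ε / 2))) :=
              mul_le_mul_of_nonneg_left (by rw [sub_eq_add_neg]; exact hrj2) (by positivity)
          _ = _ := by ring
      · rw [hm]
        have : 0 + (K + 1) * (-θ * β + θ * (ε / 2)) + θ * ((β - ε) * (n + (K + 1))) =
          θ * ((β - ε) * n - (K + 1) * (ε / 2)) := by ring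
        rw [this]
        exact mul_neg_of_pos_of_neg hθ0 (by nlinarith)
  -- compare the powers
  have main : ∀ δ > 0, S.F X' u v ≤ exp (δ * m) * S.F Y' u v := by
    intro δ hδ
    obtain ⟨C, hC⟩ := hc δ hδ
    refine root_lemma (S.F X' u v) (S.F Y' u v) (exp (δ * m)) |C| t hP0 (KSys.F_pos _ _ _).le
      (Real.exp_pos _).le ht0 ht1 ?_
    intro N
    have hRN := H.pw hR' N
    have hch := KSys.chernoff (S.pw X' N) (S.pw Y' N) (H.dim_eq _ _ hRN) u v θ
      ((α + ε) * ((N + 1) * m)) ((α - ε) * ((N + 1) * m)) ((β + ε) * ((N + 1) * m))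
      ((β - ε) * ((N + 1) * m)) (|C| * exp (δ * ((N + 1) * m))) hθ0.le (by positivity) (by
        intro p q h1 h2 h3 h4
        have h5 := hC _ _ hRN p q (by
          rw [hdpow, abs_le]
          constructor <;> nlinarith) (by
          rw [hdpow, abs_le]
          constructor <;> nlinarith)
        rw [hdpow] at h5
        refine h5.trans ?_
        refine mul_le_mul_of_nonneg_right ?_ (by positivity)
        exact mul_le_mul_of_nonneg_right (le_abs_self C) (Real.exp_pos _).le)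
    simp only [KSys.F_pw] at hch
    refine hch.trans (le_of_eq ?_)
    have hexp : ∀ z : ℝ, exp (z * ((N + 1) * m)) = exp (z * m) ^ (N + 1) := by
      intro z
      rw [← Real.exp_nat_mul]
      congr 1
      push_cast
      ring
    have e0 : exp (δ * ((N + 1) * m)) = exp (δ * m) ^ (N + 1) := hexp δ
    have e1 : exp (-θ * ((α + ε) * ((N + 1) * m))) = exp (-θ * ((α + ε) * m)) ^ (N + 1) := by
      rw [← Real.exp_nat_mul]; congr 1; push_cast; ring
    have e2 : exp (θ * ((α - ε) * ((N + 1) * m))) = exp (θ * ((α - ε) * m)) ^ (N + 1) := by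
      rw [← Real.exp_nat_mul]; congr 1; push_cast; ring
    have e3 : exp (-θ * ((β + ε) * ((N + 1) * m))) = exp (-θ * ((β + ε) * m)) ^ (N + 1) := by
      rw [← Real.exp_nat_mul]; congr 1; push_cast; ring
    have e4 : exp (θ * ((β - ε) * ((N + 1) * m))) = exp (θ * ((β - ε) * m)) ^ (N + 1) := by
      rw [← Real.exp_nat_mul]; congr 1; push_cast; ring
    rw [e0, e1, e2, e3, e4, Fin.sum_univ_four, ht]
    simp only [Matrix.cons_val_zero, Matrix.cons_val_one, Matrix.cons_val]
    rw [mul_pow, mul_pow, mul_pow, mul_pow, mul_pow]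
    ring
  have h1 := le_of_forall_exp _ _ _ main
  rw [hFX, hFY] at h1
  exact le_of_mul_le_mul_right h1 (by positivity)

/-- Comparable numbers are equal. -/
theorem Setup.eq {R : S.V → S.V → Prop} {E : S.V} {i j : ℕ} (H : Setup S R E i j)
    (u₀ v₀ ε : ℝ) (hε : 0 < ε)
    (hc : ∀ δ > 0, ∃ C : ℝ, ∀ X Y, R X Y → ∀ p q : ℕ,
      |(p : ℝ) - (i * (exp u₀ / (1 + exp u₀))) * S.dim X| ≤ ε * S.dim X →
      |(q : ℝ) - (j * (exp v₀ / (1 + exp v₀))) * S.dim X| ≤ ε * S.dim X →
      (S.c X p q : ℝ) ≤ C * exp (δ * S.dim X) * S.c Y p q)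
    {X Y : S.V} (h : R X Y) (p q : ℕ) : S.c X p q = S.c Y p q := by
  obtain ⟨r1, hr1, h1⟩ := log_one_add_exp_strict i u₀ (ε / 2) (by positivity)
  obtain ⟨r2, hr2, h2⟩ := log_one_add_exp_strict j v₀ (ε / 2) (by positivity)
  set r := min r1 r2 with hr
  have hr0 : 0 < r := lt_min hr1 hr2
  have hdim : S.dim X = S.dim Y := H.dim_eq _ _ h
  have hFeq : ∀ u v, |u - u₀| < r → |v - v₀| < r → S.F X u v = S.F Y u v := by
    intro u v hu hv
    refine le_antisymm ?_ ?_
    · exact H.F_le u₀ v₀ ε r hε hr0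
        (fun u hu θ hθ => h1 u (hu.trans_le (min_le_left _ _)) θ (hθ.trans_le (min_le_left _ _)))
        (fun v hv θ hθ => h2 v (hv.trans_le (min_le_right _ _)) θ (hθ.trans_le (min_le_right _ _)))
        hc h u v hu hv
    · exact H.F_le u₀ v₀ ε r hε hr0
        (fun u hu θ hθ => h1 u (hu.trans_le (min_le_left _ _)) θ (hθ.trans_le (min_le_left _ _)))
        (fun v hv θ hθ => h2 v (hv.trans_le (min_le_right _ _)) θ (hθ.trans_le (min_le_right _ _)))
        hc (H.symm _ _ h) u v hu hv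
  -- split the sums
  have hsplit : ∀ (Z : S.V) (u v : ℝ), S.F Z u v = ∑ p ∈ range (2 * S.dim Z + 1),
      (∑ q ∈ range (2 * S.dim Z + 1), (S.c Z p q : ℝ) * exp (v * q)) * exp (u * p) := by
    intro Z u v
    unfold KSys.F
    refine Finset.sum_congr rfl fun p _ => ?_
    rw [Finset.sum_mul]
    refine Finset.sum_congr rfl fun q _ => ?_
    rw [Real.exp_add]
    ring
  have hstep1 : ∀ v, |v - v₀| < r → ∀ p < 2 * S.dim X + 1,
      ∑ q ∈ range (2 * S.dim X + 1), (S.c X p q : ℝ) * exp (v * q) =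
        ∑ q ∈ range (2 * S.dim X + 1), (S.c Y p q : ℝ) * exp (v * q) := by
    intro v hv
    refine coeff_unique _ _ _ u₀ r hr0 ?_
    intro u hu
    have := hFeq u v hu hv
    rw [hsplit, hsplit, ← hdim] at this
    exact this
  have hstep2 : ∀ p < 2 * S.dim X + 1, ∀ q < 2 * S.dim X + 1,
      (S.c X p q : ℝ) = (S.c Y p q : ℝ) := by
    intro p hp
    refine coeff_unique _ _ _ v₀ r hr0 ?_
    intro v hv
    exact hstep1 v hv p hp
  by_cases hp : p < 2 * S.dim X + 1
  · by_cases hq : q < 2 * S.dim X + 1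
    · exact_mod_cast hstep2 p hp q hq
    · rw [KSys.c_eq_zero_right (by omega), KSys.c_eq_zero_right (by omega)]
  · rw [KSys.c_eq_zero_left (by omega), KSys.c_eq_zero_left (by omega)]

end Pool.Agent.U644.DH
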