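import Pool.Agent.U644.DH.Main

/-!
Hodge numbers and derived equivalence.
-/

namespace Pool.Agent.U644.DH

open Finset Real Filter

universe u

/-- A class of smooth projective complex varieties, closed under products and containing an
elliptic curve, with Hodge numbers and the relation of derived equivalence. -/
structure HodgeTheory where
  /-- the varieties -/
  V : Type u
  /-- the dimension -/
  dim : V → ℕ
  /-- the Hodge numbers `h^{p,q}` -/
  h : V → ℕ → ℕ → ℕ
  /-- the product -/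
  prod : V → V → V
  /-- an elliptic curve -/
  ell : V
  /-- derived equivalence -/
  Deq : V → V → Prop
  dim_prod : ∀ X Y, dim (prod X Y) = dim X + dim Y
  kunneth : ∀ X Y p q, h (prod X Y) p q =
    ∑ a ∈ antidiagonal p, ∑ b ∈ antidiagonal q, h X a.1 b.1 * h Y a.2 b.2
  h_bound : ∀ X p q, h X p q ≠ 0 → p ≤ dim X ∧ q ≤ dim X
  h_zero : ∀ X, h X 0 0 = 1
  serre : ∀ X p q, p ≤ dim X → q ≤ dim X → h X p q = h X (dim X - p) (dim X - q)
  lefschetz : ∀ X p q, p + q < dim X → h X p q ≤ h X (p + 1) (q + 1)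
  dim_ell : dim ell = 1
  h_ell : ∀ p q, p ≤ 1 → q ≤ 1 → h ell p q = 1
  deq_refl : ∀ X, Deq X X
  deq_symm : ∀ X Y, Deq X Y → Deq Y X
  deq_dim : ∀ X Y, Deq X Y → dim X = dim Y
  deq_prod : ∀ X Y X' Y', Deq X Y → Deq X' Y' → Deq (prod X X') (prod Y Y')
  hochschild : ∀ X Y, Deq X Y → ∀ i : ℤ,
    ∑ x ∈ range (dim X + 1) ×ˢ range (dim X + 1) with (x.1 : ℤ) - x.2 = i, h X x.1 x.2 =
      ∑ x ∈ range (dim X + 1) ×ˢ range (dim X + 1) with (x.1 : ℤ) - x.2 = i, h Y x.1 x.2

variable (T : HodgeTheory.{u})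

/-- The Betti numbers. -/
def HodgeTheory.betti (X : T.V) (k : ℕ) : ℕ := ∑ x ∈ antidiagonal k, T.h X x.1 x.2

/-- Q1: the Hodge numbers are derived invariants. -/
def HodgeTheory.Invariant : Prop := ∀ X Y, T.Deq X Y → ∀ p q, T.h X p q = T.h Y p q

/-- The numbers `h^{0,q}` are derived invariants. -/
def HodgeTheory.RowInvariant : Prop := ∀ X Y, T.Deq X Y → ∀ q, T.h X 0 q = T.h Y 0 q

/-- The Betti numbers are derived invariants. -/
def HodgeTheory.BettiInvariant : Prop := ∀ X Y, T.Deq X Y → ∀ k, T.betti X k = T.betti Y k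

/-- The Hodge numbers `h^{p,q}` of derived equivalent varieties with `p / n` close to `α` and
`q / n` close to `β` (`n` the dimension) agree up to a factor which is subexponential in `n`. -/
def HodgeTheory.Comparable (α β ε : ℝ) : Prop :=
  ∀ δ > 0, ∃ C : ℝ, ∀ X Y, T.Deq X Y → ∀ p q : ℕ,
    |(p : ℝ) - α * T.dim X| ≤ ε * T.dim X → |(q : ℝ) - β * T.dim X| ≤ ε * T.dim X →
      (T.h X p q : ℝ) ≤ C * exp (δ * T.dim X) * T.h Y p q

/-- The same for the numbers `h^{0,q}`. -/
def HodgeTheory.RowComparable (β ε : ℝ) : Prop :=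
  ∀ δ > 0, ∃ C : ℝ, ∀ X Y, T.Deq X Y → ∀ q : ℕ, |(q : ℝ) - β * T.dim X| ≤ ε * T.dim X →
      (T.h X 0 q : ℝ) ≤ C * exp (δ * T.dim X) * T.h Y 0 q

/-- The same for the Betti numbers. -/
def HodgeTheory.BettiComparable (β ε : ℝ) : Prop :=
  ∀ δ > 0, ∃ C : ℝ, ∀ X Y, T.Deq X Y → ∀ k : ℕ, |(k : ℝ) - β * T.dim X| ≤ ε * T.dim X →
      (T.betti X k : ℝ) ≤ C * exp (δ * T.dim X) * T.betti Y k

/-! ### The systems of numbers -/

variable {T}

/-- The Hodge numbers. -/
def fullSys (T : HodgeTheory.{u}) : KSys.{u} where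
  V := T.V
  dim := T.dim
  prod := T.prod
  c := T.h
  dim_prod := T.dim_prod
  kunneth := T.kunneth
  bound X p q h := by
    have := T.h_bound X p q h
    omega
  pos X := by rw [T.h_zero]; exact one_pos

/-- A system in one degree. -/
def rowSys (T : HodgeTheory.{u}) (b : T.V → ℕ → ℕ)
    (hk : ∀ X Y q, b (T.prod X Y) q = ∑ x ∈ antidiagonal q, b X x.1 * b Y x.2)
    (hb : ∀ X q, b X q ≠ 0 → q ≤ 2 * T.dim X) (h0 : ∀ X, 0 < b X 0) : KSys.{u} where
  V := T.V
  dim := T.dim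
  prod := T.prod
  c X p q := if p = 0 then b X q else 0
  dim_prod := T.dim_prod
  kunneth X Y p q := by
    by_cases hp : p = 0
    · subst hp
      simp [hk]
    · rw [if_neg hp]
      symm
      refine Finset.sum_eq_zero fun a ha => Finset.sum_eq_zero fun b' _ => ?_
      have h1 := mem_antidiagonal.1 ha
      by_cases h2 : a.1 = 0
      · rw [if_neg (show ¬ a.2 = 0 by omega), mul_zero]
      · rw [if_neg h2, zero_mul]
  bound X p q h := by
    by_cases hp : p = 0
    · rw [if_pos hp] at h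
      exact ⟨by omega, hb X q h⟩
    · rw [if_neg hp] at h
      exact absurd rfl h
  pos X := by
    rw [if_pos rfl]
    exact h0 X

/-- Reindexing. -/
lemma quad {M : Type*} [AddCommMonoid M] (k : ℕ) (Φ : ℕ → ℕ → ℕ → ℕ → M) :
    ∑ x ∈ antidiagonal k, ∑ a ∈ antidiagonal x.1, ∑ b ∈ antidiagonal x.2, Φ a.1 a.2 b.1 b.2 =
      ∑ y ∈ antidiagonal k, ∑ c ∈ antidiagonal y.1, ∑ d ∈ antidiagonal y.2,
        Φ c.1 d.1 c.2 d.2 := by
  simp only [Finset.sum_sigma']
  refine Finset.sum_nbij'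
    (fun z => ⟨(z.2.1.1 + z.2.2.1, z.2.1.2 + z.2.2.2), ⟨(z.2.1.1, z.2.2.1), (z.2.1.2, z.2.2.2)⟩⟩)
    (fun z => ⟨(z.2.1.1 + z.2.2.1, z.2.1.2 + z.2.2.2), ⟨(z.2.1.1, z.2.2.1), (z.2.1.2, z.2.2.2)⟩⟩)
    ?_ ?_ ?_ ?_ ?_
  · rintro ⟨⟨p, q⟩, ⟨⟨a1, a2⟩, ⟨b1, b2⟩⟩⟩ h
    simp only [Finset.mem_sigma, HasAntidiagonal.mem_antidiagonal] at h ⊢
    obtain ⟨h1, h2, h3⟩ := h
    refine ⟨?_, trivial, trivial⟩
    show a1 + b1 + (a2 + b2) = k
    omega
  · rintro ⟨⟨p, q⟩, ⟨⟨a1, a2⟩, ⟨b1, b2⟩⟩⟩ h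
    simp only [Finset.mem_sigma, HasAntidiagonal.mem_antidiagonal] at h ⊢
    obtain ⟨h1, h2, h3⟩ := h
    refine ⟨?_, trivial, trivial⟩
    show a1 + b1 + (a2 + b2) = k
    omega
  · rintro ⟨⟨p, q⟩, ⟨⟨a1, a2⟩, ⟨b1, b2⟩⟩⟩ h
    simp only [Finset.mem_sigma, HasAntidiagonal.mem_antidiagonal] at h
    obtain ⟨h1, h2, h3⟩ := h
    subst h2
    subst h3
    rfl
  · rintro ⟨⟨p, q⟩, ⟨⟨a1, a2⟩, ⟨b1, b2⟩⟩⟩ h
    simp only [Finset.mem_sigma, HasAntidiagonal.mem_antidiagonal] at h
    obtain ⟨h1, h2, h3⟩ := h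
    subst h2
    subst h3
    rfl
  · rintro ⟨⟨p, q⟩, ⟨⟨a1, a2⟩, ⟨b1, b2⟩⟩⟩ _
    rfl

lemma betti_prod (X Y : T.V) (k : ℕ) :
    T.betti (T.prod X Y) k = ∑ x ∈ antidiagonal k, T.betti X x.1 * T.betti Y x.2 := by
  unfold HodgeTheory.betti
  simp only [T.kunneth, Finset.sum_mul_sum]
  exact quad k (fun a a' b b' => T.h X a b * T.h Y a' b')

lemma betti_bound (X : T.V) (k : ℕ) (h : T.betti X k ≠ 0) : k ≤ 2 * T.dim X := by
  unfold HodgeTheory.betti at h
  obtain ⟨x, hx, hx2⟩ := Finset.exists_ne_zero_of_sum_ne_zero h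
  have := T.h_bound X _ _ hx2
  have h3 := mem_antidiagonal.1 hx
  omega

lemma row_prod (X Y : T.V) (q : ℕ) :
    T.h (T.prod X Y) 0 q = ∑ x ∈ antidiagonal q, T.h X 0 x.1 * T.h Y 0 x.2 := by
  rw [T.kunneth]
  simp

/-- The first row. -/
def row0 (T : HodgeTheory.{u}) : KSys.{u} :=
  rowSys T (fun X q => T.h X 0 q) row_prod
    (fun X q h => by have := (T.h_bound X 0 q h).2; omega) (fun X => by
      show 0 < T.h X 0 0
      rw [T.h_zero]; exact one_pos)

/-- The Betti numbers. -/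
def bettiSys (T : HodgeTheory.{u}) : KSys.{u} :=
  rowSys T T.betti betti_prod betti_bound (fun X => by
    unfold HodgeTheory.betti
    simp [T.h_zero])

lemma h_ell_eq_zero (p q : ℕ) (h : 1 < p ∨ 1 < q) : T.h T.ell p q = 0 := by
  by_contra h0
  have := T.h_bound T.ell p q h0
  rw [T.dim_ell] at this
  omega

lemma setup_full : Setup (fullSys T) T.Deq T.ell 1 1 where
  symm := T.deq_symm
  refl := T.deq_refl
  dim_eq := T.deq_dim
  prod := T.deq_prod
  dim_E := T.dim_ell
  F_E u v := by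
    have hd : (fullSys T).dim T.ell = 1 := T.dim_ell
    unfold KSys.F
    rw [hd]
    have h00 : (fullSys T).c T.ell 0 0 = 1 := T.h_ell 0 0 (by norm_num) (by norm_num)
    have h01 : (fullSys T).c T.ell 0 1 = 1 := T.h_ell 0 1 (by norm_num) (by norm_num)
    have h10 : (fullSys T).c T.ell 1 0 = 1 := T.h_ell 1 0 (by norm_num) (by norm_num)
    have h11 : (fullSys T).c T.ell 1 1 = 1 := T.h_ell 1 1 (by norm_num) (by norm_num)
    have h02 : (fullSys T).c T.ell 0 2 = 0 := h_ell_eq_zero 0 2 (by norm_num)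
    have h12 : (fullSys T).c T.ell 1 2 = 0 := h_ell_eq_zero 1 2 (by norm_num)
    have h22 : (fullSys T).c T.ell 2 2 = 0 := h_ell_eq_zero 2 2 (by norm_num)
    have h20 : (fullSys T).c T.ell 2 0 = 0 := h_ell_eq_zero 2 0 (by norm_num)
    have h21 : (fullSys T).c T.ell 2 1 = 0 := h_ell_eq_zero 2 1 (by norm_num)
    simp only [Finset.sum_range_succ, Finset.sum_range_zero, h00, h01, h10, h11, h02, h12, h22,
      h20, h21]
    push_cast
    simp only [mul_zero, mul_one, zero_add, add_zero, zero_mul, one_mul, Real.exp_zero,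
      Real.exp_add, pow_one]
    ring

lemma setup_row : Setup (row0 T) T.Deq T.ell 0 1 where
  symm := T.deq_symm
  refl := T.deq_refl
  dim_eq := T.deq_dim
  prod := T.deq_prod
  dim_E := T.dim_ell
  F_E u v := by
    have hd : (row0 T).dim T.ell = 1 := T.dim_ell
    unfold KSys.F
    rw [hd]
    have h00 : (row0 T).c T.ell 0 0 = 1 := T.h_ell 0 0 (by norm_num) (by norm_num)
    have h01 : (row0 T).c T.ell 0 1 = 1 := T.h_ell 0 1 (by norm_num) (by norm_num)
    have h02 : (row0 T).c T.ell 0 2 = 0 := h_ell_eq_zero 0 2 (by norm_num)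
    have h1 : ∀ q, (row0 T).c T.ell 1 q = 0 := fun q => rfl
    have h2 : ∀ q, (row0 T).c T.ell 2 q = 0 := fun q => rfl
    simp only [Finset.sum_range_succ, Finset.sum_range_zero, h00, h01, h02, h1, h2]
    push_cast
    simp only [mul_zero, mul_one, zero_add, add_zero, zero_mul, one_mul, Real.exp_zero,
      pow_one, pow_zero]

lemma setup_betti : Setup (bettiSys T) T.Deq T.ell 0 2 where
  symm := T.deq_symm
  refl := T.deq_refl
  dim_eq := T.deq_dim
  prod := T.deq_prod
  dim_E := T.dim_ell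
  F_E u v := by
    have hd : (bettiSys T).dim T.ell = 1 := T.dim_ell
    unfold KSys.F
    rw [hd]
    have e00 : T.h T.ell 0 0 = 1 := T.h_ell 0 0 (by norm_num) (by norm_num)
    have e01 : T.h T.ell 0 1 = 1 := T.h_ell 0 1 (by norm_num) (by norm_num)
    have e10 : T.h T.ell 1 0 = 1 := T.h_ell 1 0 (by norm_num) (by norm_num)
    have e11 : T.h T.ell 1 1 = 1 := T.h_ell 1 1 (by norm_num) (by norm_num)
    have e02 : T.h T.ell 0 2 = 0 := h_ell_eq_zero 0 2 (by norm_num)
    have e20 : T.h T.ell 2 0 = 0 := h_ell_eq_zero 2 0 (by norm_num)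
    have b0 : T.betti T.ell 0 = 1 := by
      unfold HodgeTheory.betti
      simp [e00]
    have b1 : T.betti T.ell 1 = 2 := by
      unfold HodgeTheory.betti
      simp [Finset.Nat.sum_antidiagonal_succ, e01, e10]
    have b2 : T.betti T.ell 2 = 1 := by
      unfold HodgeTheory.betti
      simp [Finset.Nat.sum_antidiagonal_succ, e02, e20, e11]
    have h00 : (bettiSys T).c T.ell 0 0 = 1 := b0
    have h01 : (bettiSys T).c T.ell 0 1 = 2 := b1
    have h02 : (bettiSys T).c T.ell 0 2 = 1 := b2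
    have h1 : ∀ q, (bettiSys T).c T.ell 1 q = 0 := fun q => rfl
    have h2 : ∀ q, (bettiSys T).c T.ell 2 q = 0 := fun q => rfl
    simp only [Finset.sum_range_succ, Finset.sum_range_zero, h00, h01, h02, h1, h2]
    push_cast
    have e : exp (v * 2) = exp v * exp v := by
      rw [← Real.exp_add]
      congr 1
      ring
    simp only [mul_zero, mul_one, zero_add, add_zero, zero_mul, one_mul, Real.exp_zero,
      pow_zero, e]
    ring

/-- The logistic function takes all values in `(0, 1)`. -/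
lemma exists_logit (α : ℝ) (h0 : 0 < α) (h1 : α < 1) : ∃ u : ℝ, exp u / (1 + exp u) = α := by
  refine ⟨Real.log (α / (1 - α)), ?_⟩
  have h2 : 0 < 1 - α := by linarith
  rw [Real.exp_log (by positivity)]
  field_simp
  ring

theorem invariant_iff (α β ε : ℝ) (hα0 : 0 < α) (hα1 : α < 1) (hβ0 : 0 < β) (hβ1 : β < 1)
    (hε : 0 < ε) : T.Invariant ↔ T.Comparable α β ε := by
  constructor
  · intro h δ hδ
    refine ⟨1, fun X Y hXY p q _ _ => ?_⟩
    rw [h X Y hXY p q, one_mul]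
    have : (1 : ℝ) ≤ exp (δ * T.dim X) := Real.one_le_exp (by positivity)
    have h2 : (0 : ℝ) ≤ T.h Y p q := by positivity
    nlinarith
  · intro hc X Y hXY p q
    obtain ⟨u₀, hu⟩ := exists_logit α hα0 hα1
    obtain ⟨v₀, hv⟩ := exists_logit β hβ0 hβ1
    refine setup_full.eq u₀ v₀ ε hε ?_ hXY p q
    intro δ hδ
    obtain ⟨C, hC⟩ := hc δ hδ
    refine ⟨C, fun X Y hXY p q h1 h2 => ?_⟩
    rw [hu, Nat.cast_one, one_mul] at h1
    rw [hv, Nat.cast_one, one_mul] at h2
    exact hC X Y hXY p q h1 h2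

theorem row_iff (β ε : ℝ) (hβ0 : 0 < β) (hβ1 : β < 1) (hε : 0 < ε) :
    T.RowInvariant ↔ T.RowComparable β ε := by
  constructor
  · intro h δ hδ
    refine ⟨1, fun X Y hXY q _ => ?_⟩
    rw [h X Y hXY q, one_mul]
    have : (1 : ℝ) ≤ exp (δ * T.dim X) := Real.one_le_exp (by positivity)
    have h2 : (0 : ℝ) ≤ T.h Y 0 q := by positivity
    nlinarith
  · intro hc X Y hXY q
    obtain ⟨v₀, hv⟩ := exists_logit β hβ0 hβ1
    refine (setup_row (T := T)).eq 0 v₀ ε hε ?_ hXY 0 q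
    intro δ hδ
    obtain ⟨C, hC⟩ := hc δ hδ
    refine ⟨|C|, fun X Y hXY p q _ h2 => ?_⟩
    rw [hv, Nat.cast_one, one_mul] at h2
    by_cases hp : p = 0
    · subst hp
      have h3 := hC X Y hXY q h2
      refine h3.trans ?_
      refine mul_le_mul_of_nonneg_right ?_ (by positivity)
      exact mul_le_mul_of_nonneg_right (le_abs_self C) (Real.exp_pos _).le
    · have h3 : (row0 T).c X p q = 0 := if_neg hp
      rw [h3]
      push_cast
      positivity

theorem betti_iff (β ε : ℝ) (hβ0 : 0 < β) (hβ1 : β < 2) (hε : 0 < ε) :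
    T.BettiInvariant ↔ T.BettiComparable β ε := by
  constructor
  · intro h δ hδ
    refine ⟨1, fun X Y hXY q _ => ?_⟩
    rw [h X Y hXY q, one_mul]
    have : (1 : ℝ) ≤ exp (δ * T.dim X) := Real.one_le_exp (by positivity)
    have h2 : (0 : ℝ) ≤ T.betti Y q := by positivity
    nlinarith
  · intro hc X Y hXY q
    obtain ⟨v₀, hv⟩ := exists_logit (β / 2) (by positivity) (by linarith)
    refine (setup_betti (T := T)).eq 0 v₀ ε hε ?_ hXY 0 q
    intro δ hδ
    obtain ⟨C, hC⟩ := hc δ hδ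
    refine ⟨|C|, fun X Y hXY p q _ h2 => ?_⟩
    rw [hv] at h2
    have h2' : |(q : ℝ) - β * T.dim X| ≤ ε * T.dim X := by
      have e : ((2 : ℕ) : ℝ) * (β / 2) = β := by push_cast; ring
      rw [e] at h2
      exact h2
    by_cases hp : p = 0
    · subst hp
      have h3 := hC X Y hXY q h2'
      refine h3.trans ?_
      refine mul_le_mul_of_nonneg_right ?_ (by positivity)
      exact mul_le_mul_of_nonneg_right (le_abs_self C) (Real.exp_pos _).le
    · have h3 : (bettiSys T).c X p q = 0 := if_neg hp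
      rw [h3]
      push_cast
      positivity

/-! ### The middle degree -/

lemma unimodal_low (X : T.V) (k p q : ℕ) (h : p + q + 2 * k ≤ T.dim X) :
    T.h X p q ≤ T.h X (p + k) (q + k) := by
  induction k with
  | zero => exact le_rfl
  | succ k ih =>
    have h1 := ih (by omega)
    have h2 := T.lefschetz X (p + k) (q + k) (by omega)
    have e1 : p + k + 1 = p + (k + 1) := by ring
    have e2 : q + k + 1 = q + (k + 1) := by ring
    rw [e1, e2] at h2
    exact h1.trans h2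

lemma unimodal (X : T.V) (p q p' q' : ℕ) (hpq : p + q = T.dim X) (hp' : p' ≤ T.dim X)
    (hq' : q' ≤ T.dim X) (h : (p' : ℤ) - q' = (p : ℤ) - q) : T.h X p' q' ≤ T.h X p q := by
  rcases le_total p' p with hle | hle
  · obtain ⟨k, rfl⟩ := Nat.exists_eq_add_of_le hle
    have hq : q = q' + k := by omega
    subst hq
    exact unimodal_low X k p' q' (by omega)
  · obtain ⟨k, rfl⟩ := Nat.exists_eq_add_of_le hle
    have hq : q' = q + k := by omega
    subst hq
    rw [T.serre X (p + k) (q + k) hp' hq', T.serre X p q (by omega) (by omega)]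
    have h1 := unimodal_low X k (T.dim X - (p + k)) (T.dim X - (q + k)) (by omega)
    have e1 : T.dim X - (p + k) + k = T.dim X - p := by omega
    have e2 : T.dim X - (q + k) + k = T.dim X - q := by omega
    rw [e1, e2] at h1
    exact h1

theorem middle (X Y : T.V) (hXY : T.Deq X Y) (p q : ℕ) (hpq : p + q = T.dim X) :
    T.h X p q ≤ (T.dim X + 1) * T.h Y p q := by
  classical
  have hdim := T.deq_dim X Y hXY
  set s := (range (T.dim X + 1) ×ˢ range (T.dim X + 1)).filter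
    (fun x : ℕ × ℕ => (x.1 : ℤ) - x.2 = (p : ℤ) - q) with hs
  have h1 : T.h X p q ≤ ∑ x ∈ s, T.h X x.1 x.2 := by
    refine Finset.single_le_sum (f := fun x : ℕ × ℕ => T.h X x.1 x.2) (fun _ _ => Nat.zero_le _)
      (a := (p, q)) ?_
    rw [hs, Finset.mem_filter, Finset.mem_product, Finset.mem_range, Finset.mem_range]
    exact ⟨⟨by omega, by omega⟩, rfl⟩
  have h2 : ∑ x ∈ s, T.h X x.1 x.2 = ∑ x ∈ s, T.h Y x.1 x.2 := T.hochschild X Y hXY _
  have h3 : ∑ x ∈ s, T.h Y x.1 x.2 ≤ s.card • T.h Y p q := by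
    refine Finset.sum_le_card_nsmul _ _ _ fun x hx => ?_
    rw [hs, Finset.mem_filter, Finset.mem_product, Finset.mem_range, Finset.mem_range] at hx
    refine unimodal Y p q x.1 x.2 (by omega) (by omega) (by omega) hx.2
  have h4 : s.card ≤ T.dim X + 1 := by
    have : s.card ≤ (range (T.dim X + 1)).card := by
      refine Finset.card_le_card_of_injOn (fun x => x.1) ?_ ?_
      · intro x hx
        have hx' := Finset.mem_coe.1 hx
        rw [hs, Finset.mem_filter, Finset.mem_product] at hx'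
        exact Finset.mem_coe.2 hx'.1.1
      · intro x hx y hy hxy
        have hx' := Finset.mem_coe.1 hx
        have hy' := Finset.mem_coe.1 hy
        rw [hs, Finset.mem_filter] at hx' hy'
        have h5 := hx'.2
        have h6 := hy'.2
        have h7 : x.1 = y.1 := hxy
        exact Prod.ext h7 (by omega)
    rwa [Finset.card_range] at this
  calc T.h X p q ≤ ∑ x ∈ s, T.h X x.1 x.2 := h1
    _ = ∑ x ∈ s, T.h Y x.1 x.2 := h2
    _ ≤ s.card • T.h Y p q := h3
    _ = s.card * T.h Y p q := by rw [smul_eq_mul]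
    _ ≤ (T.dim X + 1) * T.h Y p q := Nat.mul_le_mul_right _ h4

end Pool.Agent.U644.DH
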